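import Mathlib

set_option autoImplicit false

/-!
# The characteristic polynomial is determined by the traces of the powers
-/

namespace Pool.Agent.H79R

open Module Polynomial

universe v w

/-- Over an algebraically closed field the trace of `g^k` is the sum of the `k`-th powers of the roots
of the characteristic polynomial. -/
theorem trace_pow_eq_roots {Ω : Type v} [Field Ω] [IsAlgClosed Ω] {W : Type w} [AddCommGroup W]
    [Module Ω W] [FiniteDimensional Ω W] (g : Module.End Ω W) (k : ℕ) :
    LinearMap.trace Ω W (g ^ k) = (g.charpoly.roots.map (fun z => z ^ k)).sum := by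
  classical
  have hint : DirectSum.IsInternal g.maxGenEigenspace := by
    rw [DirectSum.isInternal_submodule_iff_iSupIndep_and_iSup_eq_top]
    exact ⟨g.independent_maxGenEigenspace, Module.End.iSup_maxGenEigenspace_eq_top g⟩
  have hfin : {μ | g.maxGenEigenspace μ ≠ ⊥}.Finite :=
    WellFoundedGT.finite_ne_bot_of_iSupIndep hint.submodule_iSupIndep
  have hmaps : ∀ μ, Set.MapsTo (g ^ k) (g.maxGenEigenspace μ) (g.maxGenEigenspace μ) := fun μ =>
    g.mapsTo_maxGenEigenspace_of_comm ((Commute.refl g).pow_right k) μ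
  rw [LinearMap.trace_eq_sum_trace_restrict' hint hfin hmaps]
  have h1 : ∀ μ, LinearMap.trace Ω (g.maxGenEigenspace μ) ((g ^ k).restrict (hmaps μ)) =
      (finrank Ω (g.maxGenEigenspace μ) : Ω) * μ ^ k := by
    intro μ
    have hm := g.mapsTo_maxGenEigenspace_of_comm (Commute.refl g) μ
    have hnil := g.isNilpotent_restrict_maxGenEigenspace_sub_algebraMap μ
    have e : (g ^ k).restrict (hmaps μ) = (g.restrict hm) ^ k :=
      (Module.End.pow_restrict k hm _).symm
    rw [e]
    clear e
    induction k with
    | zero => simp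
    | succ k ih =>
      have hmaps' : ∀ μ, Set.MapsTo (g ^ k) (g.maxGenEigenspace μ) (g.maxGenEigenspace μ) :=
        fun μ => g.mapsTo_maxGenEigenspace_of_comm ((Commute.refl g).pow_right k) μ
      have h2 := LinearMap.trace_comp_eq_mul_of_commute_of_isNilpotent (R := Ω) μ
        (f := (g.restrict hm) ^ k) (g := g.restrict hm) ((Commute.refl _).pow_left k) hnil
      rw [pow_succ, Module.End.mul_eq_comp, h2, ih hmaps']
      ring
  rw [Finset.sum_congr rfl fun μ _ => h1 μ, Finset.sum_multiset_map_count]
  have hset : hfin.toFinset = g.charpoly.roots.toFinset := by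
    ext μ
    rw [Set.Finite.mem_toFinset, Multiset.mem_toFinset, ← Multiset.count_pos, count_roots,
      ← LinearMap.finrank_maxGenEigenspace_eq]
    constructor
    · intro h
      rw [Nat.pos_iff_ne_zero]
      intro h0
      exact h (Submodule.finrank_eq_zero.1 h0)
    · intro h h0
      rw [h0, finrank_bot] at h
      exact lt_irrefl _ h
  rw [hset]
  refine Finset.sum_congr rfl fun μ _ => ?_
  rw [count_roots, ← LinearMap.finrank_maxGenEigenspace_eq, nsmul_eq_mul]

/-- Newton: rational power sums give rational elementary symmetric functions, in families. -/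
theorem exists_esymm {ι : Type*} {Ω : ι → Type v} [∀ s, Field (Ω s)] [∀ s, CharZero (Ω s)]
    (n : ℕ) (x : ∀ s, Fin n → Ω s) (t : ℕ → ℚ)
    (ht : ∀ s k, ∑ i, (x s i) ^ k = (t k : Ω s)) (k : ℕ) :
    ∃ e : ℚ, ∀ s, MvPolynomial.aeval (x s) (MvPolynomial.esymm (Fin n) ℤ k) = (e : Ω s) := by
  induction k using Nat.strong_induction_on with
  | _ k ih =>
    rcases Nat.eq_zero_or_pos k with hk | hk
    · subst hk
      exact ⟨1, fun s => by simp⟩
    classical
    have h1 : ∀ j : ℕ, ∃ e : ℚ, j < k → ∀ s,
        MvPolynomial.aeval (x s) (MvPolynomial.esymm (Fin n) ℤ j) = (e : Ω s) := by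
      intro j
      by_cases hj : j < k
      · obtain ⟨e, he⟩ := ih j hj
        exact ⟨e, fun _ => he⟩
      · exact ⟨0, fun h => absurd h hj⟩
    choose e he using h1
    refine ⟨((-1) ^ (k + 1) * ∑ a ∈ Finset.HasAntidiagonal.antidiagonal k with a.1 < k,
      (-1) ^ a.1 * e a.1 * t a.2) / k, fun s => ?_⟩
    have h2 := congrArg (MvPolynomial.aeval (x s)) (MvPolynomial.mul_esymm_eq_sum (Fin n) ℤ k)
    have hk0 : (k : Ω s) ≠ 0 := Nat.cast_ne_zero.2 hk.ne'
    rw [map_mul, map_natCast] at h2
    have h3 : MvPolynomial.aeval (x s) (MvPolynomial.esymm (Fin n) ℤ k) =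
        (((-1) ^ (k + 1) * ∑ a ∈ Finset.HasAntidiagonal.antidiagonal k with a.1 < k,
          (-1) ^ a.1 * (e a.1 : Ω s) * (t a.2 : Ω s))) / k := by
      rw [eq_div_iff hk0, mul_comm, h2, map_mul, map_pow, map_neg, map_one, map_sum]
      congr 1
      refine Finset.sum_congr rfl fun a ha => ?_
      rw [Finset.mem_filter] at ha
      rw [map_mul, map_mul, map_pow, map_neg, map_one, he a.1 ha.2 s, ← ht s a.2]
      congr 1
      simp [MvPolynomial.psum]
    rw [h3]
    push_cast
    rfl

/-- In a family of endomorphisms whose powers have rational traces, independent of the index, the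
characteristic polynomial is rational and independent of the index. -/
theorem exists_charpoly {ι : Type*} {K : ι → Type v} [∀ s, Field (K s)] [∀ s, CharZero (K s)]
    {V : ι → Type w} [∀ s, AddCommGroup (V s)] [∀ s, Module (K s) (V s)]
    [∀ s, FiniteDimensional (K s) (V s)] (f : ∀ s, Module.End (K s) (V s)) (t : ℕ → ℚ)
    (ht : ∀ s k, LinearMap.trace (K s) (V s) (f s ^ k) = (t k : K s)) :
    ∃ P : ℚ[X], ∀ s, (f s).charpoly = P.map (algebraMap ℚ (K s)) := by
  rcases isEmpty_or_nonempty ι with hι | ⟨⟨o⟩⟩
  · exact ⟨0, fun s => isEmptyElim s⟩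
  set n := finrank (K o) (V o) with hn
  have hdim : ∀ s, finrank (K s) (V s) = n := by
    intro s
    have h1 := ht s 0
    have h2 := ht o 0
    rw [pow_zero, LinearMap.trace_one] at h1 h2
    have h3 : (t 0 : ℚ) = n := by
      have : ((n : ℚ) : K o) = ((t 0 : ℚ) : K o) := by rw [← h2]; simp [hn]
      exact (Rat.cast_injective this).symm
    rw [h3] at h1
    have : ((finrank (K s) (V s) : ℕ) : K s) = (n : ℕ) := by simpa using h1
    exact Nat.cast_injective this
  let Ω : ι → Type v := fun s => AlgebraicClosure (K s)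
  have hcz : ∀ s, CharZero (Ω s) := fun s =>
    charZero_of_injective_algebraMap (algebraMap (K s) (AlgebraicClosure (K s))).injective
  let M : ∀ s, Multiset (Ω s) := fun s =>
    ((f s).charpoly.map (algebraMap (K s) (Ω s))).roots
  have hmonic : ∀ s, ((f s).charpoly.map (algebraMap (K s) (Ω s))).Monic := fun s =>
    (LinearMap.charpoly_monic (f s)).map _
  have hdeg : ∀ s, ((f s).charpoly.map (algebraMap (K s) (Ω s))).natDegree = n := fun s => by
    rw [natDegree_map, LinearMap.charpoly_natDegree, hdim s]
  have hsplit : ∀ s, ((f s).charpoly.map (algebraMap (K s) (Ω s))).Splits := fun s =>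
    IsAlgClosed.splits _
  have hcard : ∀ s, (M s).card = n := fun s => by
    rw [← hdeg s]
    exact (splits_iff_card_roots.1 (hsplit s))
  have hpow : ∀ s k, ((M s).map (fun z => z ^ k)).sum = (t k : Ω s) := by
    intro s k
    have h1 := trace_pow_eq_roots ((f s).baseChange (Ω s)) k
    rw [LinearMap.charpoly_baseChange] at h1
    change _ = ((M s).map (fun z => z ^ k)).sum at h1
    rw [← h1]
    have h2 : ((f s).baseChange (Ω s)) ^ k = ((f s) ^ k).baseChange (Ω s) := by
      exact (map_pow (Module.End.baseChangeHom (K s) (Ω s) (V s)) (f s) k).symm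
    rw [h2, LinearMap.trace_baseChange, ht s k]
    simp
  -- enumerate the roots
  have hx : ∀ s, ∃ x : Fin n → Ω s, (Finset.univ.val.map x) = M s := by
    intro s
    obtain ⟨l, hl⟩ := Quot.exists_rep (M s)
    have hl' : (l : Multiset (Ω s)) = M s := hl
    have hlen : l.length = n := by rw [← hcard s, ← hl']; rfl
    refine ⟨fun i => l.get (Fin.cast hlen.symm i), ?_⟩
    rw [← hl', Fin.univ_val_map]
    congr 1
    refine List.ext_get (by simp [hlen]) fun i h1 h2 => ?_
    simp
  choose x hx using hx
  have hxs : ∀ s k, ∑ i, (x s i) ^ k = (t k : Ω s) := by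
    intro s k
    rw [← hpow s k, ← hx s, Multiset.map_map]
    rfl
  choose e he using exists_esymm n x t hxs
  refine ⟨∑ j ∈ Finset.range (n + 1), C ((-1) ^ (n - j) * e (n - j)) * X ^ j, fun s => ?_⟩
  have hinj : Function.Injective (algebraMap (K s) (Ω s)) := (algebraMap (K s) (Ω s)).injective
  apply Polynomial.map_injective _ hinj
  ext j
  by_cases hj : j ≤ n
  · rw [coeff_eq_esymm_roots_of_splits (hsplit s) (by rw [hdeg s]; exact hj), hdeg s,
      (hmonic s).leadingCoeff, one_mul]
    change (-1) ^ (n - j) * (M s).esymm (n - j) = _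
    rw [← hx s, ← MvPolynomial.aeval_esymm_eq_multiset_esymm (Fin n) ℤ]
    refine (congrArg (fun y => (-1) ^ (n - j) * y) (he (n - j) s)).trans ?_
    rw [map_map, coeff_map, finsetSum_coeff, Finset.sum_eq_single j]
    · rw [coeff_C_mul, coeff_X_pow, if_pos rfl, mul_one, eq_ratCast]
      push_cast
      rfl
    · intro b _ hb
      rw [coeff_C_mul, coeff_X_pow, if_neg hb.symm, mul_zero]
    · intro h
      exact absurd (Finset.mem_range.2 (by omega)) h
  · rw [coeff_eq_zero_of_natDegree_lt (by rw [hdeg s]; omega), map_map, coeff_map,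
      finsetSum_coeff, Finset.sum_eq_zero, map_zero]
    intro b hb
    rw [Finset.mem_range] at hb
    rw [coeff_C_mul, coeff_X_pow, if_neg (by omega), mul_zero]

end Pool.Agent.H79R
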