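import Pool.Agent.W_MP_a3c811_h79.Div
import Pool.Agent.W_a3c811_h62.LA.Stage

set_option autoImplicit false

/-! The bound for the local Euler factors, at the level of a stage. -/

noncomputable section

namespace Pool.Agent.H79R

open Module Polynomial Pool.Agent.H62A

universe uA uI v w

variable {A : Type uA} [Ring A] [Algebra ℚ A] {I : Type uI} {K : I → Type v}
    [∀ l, Field (K l)] [∀ l, CharZero (K l)] {V : I → Type w} [∀ l, AddCommGroup (V l)]
    [∀ l, Module (K l) (V l)] [∀ l, FiniteDimensional (K l) (V l)]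

omit [∀ l, FiniteDimensional (K l) (V l)] in
lemma ker_bound {T : TS A K V} (G : Stage T) (w : ℤ) (l : I) :
    LinearMap.ker (T.ρ l (G.n * G.g w + (1 - G.g w))) =
      LinearMap.range (T.ρ l (G.g w)) ⊓ LinearMap.ker (T.ρ l G.n) := by
  have hg : ∀ x, T.ρ l (G.g w) (T.ρ l (G.g w) x) = T.ρ l (G.g w) x := fun x => by
    rw [← Module.End.mul_apply, G.g_idem]
  have hn : ∀ x, T.ρ l G.n (T.ρ l (G.g w) x) = T.ρ l (G.g w) (T.ρ l G.n x) := fun x => by
    rw [← Module.End.mul_apply, G.ng, Module.End.mul_apply]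
  have hy : ∀ x, T.ρ l (G.n * G.g w + (1 - G.g w)) x =
      T.ρ l (G.g w) (T.ρ l G.n x) + (x - T.ρ l (G.g w) x) := by
    intro x
    rw [map_add, map_mul, map_sub, map_one, LinearMap.add_apply, Module.End.mul_apply,
      LinearMap.sub_apply, Module.End.one_apply, hn]
  ext x
  rw [LinearMap.mem_ker, hy, Submodule.mem_inf, LinearMap.mem_ker, LinearMap.mem_range]
  constructor
  · intro h
    have h1 := congrArg (T.ρ l (G.g w)) h
    rw [map_add, map_sub, hg, hg, sub_self, add_zero, map_zero] at h1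
    rw [h1, zero_add, sub_eq_zero] at h
    refine ⟨⟨x, h.symm⟩, ?_⟩
    rw [h, hn]
    exact h1
  · rintro ⟨⟨z, rfl⟩, h⟩
    rw [h, map_zero, hg, sub_self, add_zero]

lemma charpolyOn_unique {K : Type v} [Field K] [CharZero K] {V : Type w} [AddCommGroup V]
    [Module K V] [FiniteDimensional K V] {φ : V →ₗ[K] V} {U : Submodule K V} {P Q : ℚ[X]}
    (hP : CharpolyOn φ U P) (hQ : CharpolyOn φ U Q) : P = Q := by
  obtain ⟨h1, h2⟩ := hP
  obtain ⟨h3, h4⟩ := hQ
  exact Polynomial.map_injective _ (algebraMap ℚ K).injective (h2.symm.trans h4)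

/-- Frobenius on the invariants, in a trace system with a pure theory. -/
theorem exists_bound [Nonempty I] {T : TS A K V} (G : Stage T) {l0 : I} (h0 : T.Pure l0) (w : ℤ) :
    ∃ Q : ℚ[X],
      (∀ l, T.Pure l → CharpolyOn (T.ρ l G.f)
        (LinearMap.range (T.ρ l (G.g w)) ⊓ LinearMap.ker (T.ρ l G.n)) Q) ∧
      (G.WM l0 → ∀ l, CharpolyOn (T.ρ l G.f)
        (LinearMap.range (T.ρ l (G.g w)) ⊓ LinearMap.ker (T.ρ l G.n)) Q) ∧
      ∀ l, CharpolyDvd (T.ρ l G.f)
        (LinearMap.range (T.ρ l (G.g w)) ⊓ LinearMap.ker (T.ρ l G.n)) Q := by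
  have hf : ∀ l v, T.ρ l (G.n * G.g w + (1 - G.g w)) v = 0 →
      T.ρ l (G.n * G.g w + (1 - G.g w)) (T.ρ l G.f v) = 0 := by
    intro l v hv
    have hv' : v ∈ LinearMap.ker (T.ρ l (G.n * G.g w + (1 - G.g w))) := hv
    rw [ker_bound, Submodule.mem_inf, LinearMap.mem_ker] at hv'
    obtain ⟨⟨z, rfl⟩, h2⟩ := hv'
    change T.ρ l G.f (T.ρ l (G.g w) z) ∈ LinearMap.ker (T.ρ l (G.n * G.g w + (1 - G.g w)))
    rw [ker_bound, Submodule.mem_inf, LinearMap.mem_ker]
    constructor
    · rw [← Module.End.mul_apply, G.fg, Module.End.mul_apply]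
      exact ⟨_, rfl⟩
    · rw [← Module.End.mul_apply (T.ρ l G.n), G.nf, LinearMap.smul_apply, Module.End.mul_apply, h2,
        map_zero, smul_zero]
  obtain ⟨Q, h1, h2, h3⟩ := charpoly_ker T h0 (G.n * G.g w + (1 - G.g w)) G.f hf
  rw [ker_bound] at h1
  refine ⟨Q, fun l hl => ?_, fun hWM => ?_, fun l => ?_⟩
  · have h4 := h3 l ?_
    · rwa [ker_bound] at h4
    · have h5 := LinearMap.finrank_range_add_finrank_ker
        (T.ρ l (G.n * G.g w + (1 - G.g w)))
      have h6 := LinearMap.finrank_range_add_finrank_ker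
        (T.ρ l0 (G.n * G.g w + (1 - G.g w)))
      have h7 := TS.rk_le T (G.n * G.g w + (1 - G.g w)) h0 l
      have h8 := TS.rk_le T (G.n * G.g w + (1 - G.g w)) hl l0
      have h9 : finrank (K l) (V l) = finrank (K l0) (V l0) := by
        have h10 := T.finrank_eq l
        have h11 := T.finrank_eq l0
        rw [← h11] at h10
        exact_mod_cast h10
      unfold TS.rk at h7 h8
      omega
  · obtain ⟨h, hh⟩ := G.exists_quasi_inverse h0 hWM w
    obtain ⟨P, hP⟩ := G.charpoly_inv w h hh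
    rw [← charpolyOn_unique (hP l0) h1]
    exact hP
  · have h4 := h2 l
    rwa [ker_bound] at h4

end Pool.Agent.H79R
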