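import Pool.Agent.W_a3c811_h62.LA.CP

set_option autoImplicit false

/-! Semicontinuity of characteristic polynomials on kernels in trace systems. -/

noncomputable section

namespace Pool.Agent.H79R

open Module Polynomial Pool.Agent.H62A

universe uA uI v w

section single

variable {K : Type v} [Field K] {V U : Type w} [AddCommGroup V] [Module K V]
  [AddCommGroup U] [Module K U]

theorem charpoly_mul_quot [Infinite K] [FiniteDimensional K V] (W : Submodule K V)
    (A : Module.End K V) (he : ∀ x ∈ W, A x ∈ W) :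
    A.charpoly = (A.restrict he).charpoly * LinearMap.charpoly (W.mapQ W A he) := by
  apply Polynomial.funext
  intro t
  rw [eval_mul, LinearMap.eval_charpoly, LinearMap.eval_charpoly, LinearMap.eval_charpoly]
  have h1 : W ≤ W.comap (algebraMap K (Module.End K V) t - A) := by
    intro x hx
    exact W.sub_mem (W.smul_mem t hx) (he x hx)
  rw [LinearMap.det_eq_det_mul_det W _ h1]
  congr 2
  apply LinearMap.ext
  intro x
  obtain ⟨x, rfl⟩ := W.mkQ_surjective x
  rfl

theorem charpoly_dvd_of_inj [Infinite K] [FiniteDimensional K V] [FiniteDimensional K U]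
    (j : U →ₗ[K] V) (hj : Function.Injective j) (B : Module.End K U) (A : Module.End K V)
    (h : ∀ x, j (B x) = A (j x)) : B.charpoly ∣ A.charpoly := by
  have he : ∀ x ∈ LinearMap.range j, A x ∈ LinearMap.range j := by
    rintro _ ⟨x, rfl⟩
    exact ⟨B x, h x⟩
  suffices hs : B.charpoly = (A.restrict he).charpoly by
    rw [charpoly_mul_quot (LinearMap.range j) A he, hs]
    exact dvd_mul_right _ _
  rw [← LinearEquiv.charpoly_conj (LinearEquiv.ofInjective j hj) B]
  congr 1
  apply LinearMap.ext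
  rintro ⟨_, x, rfl⟩
  apply Subtype.ext
  rw [LinearEquiv.conj_apply_apply]
  have h1 : (LinearEquiv.ofInjective j hj).symm ⟨j x, x, rfl⟩ = x := by
    rw [LinearEquiv.symm_apply_eq]
    rfl
  rw [h1, LinearEquiv.ofInjective_apply, h]
  rfl

end single

variable {A : Type uA} [Ring A] [Algebra ℚ A] {I : Type uI} {K : I → Type v}
    [∀ l, Field (K l)] [∀ l, CharZero (K l)] {V : I → Type w} [∀ l, AddCommGroup (V l)]
    [∀ l, Module (K l) (V l)] [∀ l, FiniteDimensional (K l) (V l)]

omit [∀ l, FiniteDimensional (K l) (V l)] in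
/-- In a trace system an element which acts as zero in one theory is numerically trivial. -/
theorem mem_rad_of_zero [Nonempty I] (T : TS A K V) {l0 : I} {x : A} (hx : T.ρ l0 x = 0) :
    x ∈ T.rad := by
  intro y
  have h := T.tr l0 (y * x)
  rw [map_mul, hx, mul_zero, map_zero] at h
  have h' : ((0 : ℚ) : K l0) = ((T.t (y * x) : ℚ) : K l0) := by rw [← h, Rat.cast_zero]
  exact (Rat.cast_injective h').symm

/-- In a trace system with a pure theory `l0` there is, for every `y`, a joint idempotent `p` with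
range `ker y` in the theory `l0`, whose range contains `ker y` in every theory. -/
theorem exists_proj_ker [Nonempty I] (T : TS A K V) {l0 : I} (h0 : T.Pure l0) (y : A) :
    ∃ p : A, (∀ l, T.ρ l p * T.ρ l p = T.ρ l p) ∧
      (∀ l, LinearMap.ker (T.ρ l y) ≤ LinearMap.range (T.ρ l p)) ∧
      LinearMap.range (T.ρ l0 p) = LinearMap.ker (T.ρ l0 y) := by
  obtain ⟨r, h, _, h2, h3⟩ := T.exists_regular y
  have hreg : T.ρ l0 y * T.ρ l0 h * T.ρ l0 y = T.ρ l0 y := h3 l0 (h2 l0 h0)
  set x : A := h * y with hx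
  have hx0 : T.ρ l0 x * T.ρ l0 x = T.ρ l0 x := by
    rw [hx, map_mul, mul_assoc, ← mul_assoc (T.ρ l0 y), hreg]
  have hxr : x * x - x ∈ T.rad := by
    refine mem_rad_of_zero T (l0 := l0) ?_
    rw [map_sub, map_mul, hx0, sub_self]
  set n0 : ℕ := finrank (K l0) (V l0) with hn0
  have hfin : ∀ l, finrank (K l) (V l) = n0 := by
    intro l
    have h1 := T.finrank_eq l
    have h2 := T.finrank_eq l0
    rw [← h2] at h1
    exact_mod_cast h1
  have hpow : ∀ l, (T.ρ l x * T.ρ l x - T.ρ l x) ^ (n0 + 1) = 0 := by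
    intro l
    have h1 := T.pow_eq_zero hxr l
    rw [hfin l, map_sub, map_mul] at h1
    rw [pow_succ, h1, zero_mul]
  set e : A := 1 - (1 - x ^ (n0 + 1)) ^ (n0 + 1) with he
  have hρe : ∀ l, T.ρ l e = 1 - (1 - T.ρ l x ^ (n0 + 1)) ^ (n0 + 1) := by
    intro l
    rw [he, map_sub, map_pow, map_sub, map_pow, map_one]
  have hidem : ∀ l, T.ρ l e * T.ρ l e = T.ρ l e := by
    intro l
    rw [hρe l]
    exact TS.idem_lift _ _ (hpow l)
  obtain ⟨g, hg⟩ : ∃ g : A, e = g * y := by
    have h1 := geom_sum_mul (1 - x ^ (n0 + 1)) (n0 + 1)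
    have h2 : e = (∑ i ∈ Finset.range (n0 + 1), (1 - x ^ (n0 + 1)) ^ i) * x ^ (n0 + 1) := by
      have h3 : (1 : A) - x ^ (n0 + 1) - 1 = - x ^ (n0 + 1) := by abel
      rw [h3, mul_neg] at h1
      rw [he, ← neg_sub, ← h1, neg_neg]
    refine ⟨(∑ i ∈ Finset.range (n0 + 1), (1 - x ^ (n0 + 1)) ^ i) * x ^ n0 * h, ?_⟩
    rw [h2, pow_succ, mul_assoc _ h y, mul_assoc]
  have he0 : T.ρ l0 e = T.ρ l0 x := by
    have hX : IsIdempotentElem (T.ρ l0 x) := hx0
    rw [hρe l0, hX.pow_succ_eq, hX.one_sub.pow_succ_eq, sub_sub_cancel]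
  refine ⟨1 - e, fun l => ?_, fun l v hv => ?_, le_antisymm ?_ ?_⟩
  · have h5 := hidem l
    rw [map_sub, map_one]
    have : (1 - T.ρ l e) * (1 - T.ρ l e) = 1 - T.ρ l e - T.ρ l e + T.ρ l e * T.ρ l e := by
      noncomm_ring
    rw [this, h5]
    abel
  · refine ⟨v, ?_⟩
    rw [LinearMap.mem_ker] at hv
    rw [map_sub, map_one, LinearMap.sub_apply, Module.End.one_apply, hg, map_mul,
      Module.End.mul_apply, hv, map_zero, sub_zero]
  · rintro _ ⟨v, rfl⟩
    rw [LinearMap.mem_ker, map_sub, map_one, he0, hx, map_mul]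
    have h6 := LinearMap.congr_fun hreg v
    simp only [Module.End.mul_apply] at h6
    simp only [LinearMap.sub_apply, Module.End.one_apply, map_sub, Module.End.mul_apply]
    rw [h6, sub_self]
  · intro v hv
    refine ⟨v, ?_⟩
    rw [LinearMap.mem_ker] at hv
    rw [map_sub, map_one, LinearMap.sub_apply, Module.End.one_apply, hg, map_mul,
      Module.End.mul_apply, hv, map_zero, sub_zero]

/-- In a trace system with a pure theory `l0`, let `f` preserve the kernel of `y` in every theory.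
Then the characteristic polynomial of `f` on `ker y` in the theory `l0` is a rational polynomial `P`,
and in every theory the characteristic polynomial of `f` on `ker y` divides `P`; it is equal to `P` if
`y` has the same rank as in the theory `l0`. -/
theorem charpoly_ker [Nonempty I] (T : TS A K V) {l0 : I} (h0 : T.Pure l0) (y f : A)
    (hf : ∀ l v, T.ρ l y v = 0 → T.ρ l y (T.ρ l f v) = 0) :
    ∃ P : ℚ[X], CharpolyOn (T.ρ l0 f) (LinearMap.ker (T.ρ l0 y)) P ∧
      (∀ l, CharpolyDvd (T.ρ l f) (LinearMap.ker (T.ρ l y)) P) ∧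
      ∀ l, finrank (K l) (LinearMap.ker (T.ρ l y)) = finrank (K l0) (LinearMap.ker (T.ρ l0 y)) →
        CharpolyOn (T.ρ l f) (LinearMap.ker (T.ρ l y)) P := by
  obtain ⟨p, hp, hp1, hp2⟩ := exists_proj_ker T h0 y
  have hfix : ∀ l v, v ∈ LinearMap.range (T.ρ l p) → T.ρ l p v = v := by
    rintro l _ ⟨v, rfl⟩
    rw [← Module.End.mul_apply, hp l]
  have hst : ∀ l, ∀ v ∈ LinearMap.range (T.ρ l p), T.ρ l (p * f) v ∈ LinearMap.range (T.ρ l p) := by
    intro l v _
    rw [map_mul, Module.End.mul_apply]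
    exact ⟨_, rfl⟩
  obtain ⟨P, hP⟩ := TS.charpoly_range T (p * f) p hp hst
  have hker : ∀ l, ∀ v ∈ LinearMap.ker (T.ρ l y), T.ρ l f v ∈ LinearMap.ker (T.ρ l y) := by
    intro l v hv
    exact hf l v hv
  have hpf : ∀ l, ∀ v ∈ LinearMap.ker (T.ρ l y), T.ρ l (p * f) v = T.ρ l f v := by
    intro l v hv
    rw [map_mul, Module.End.mul_apply]
    exact hfix l _ (hp1 l (hker l v hv))
  have heq : ∀ l, LinearMap.range (T.ρ l p) = LinearMap.ker (T.ρ l y) →
      CharpolyOn (T.ρ l f) (LinearMap.ker (T.ρ l y)) P := by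
    intro l hl
    obtain ⟨h1, h2⟩ := hP l
    have key : ∀ (U : Submodule (K l) (V l)) (hU : LinearMap.range (T.ρ l p) = U)
        (h3 : ∀ x ∈ U, T.ρ l (p * f) x ∈ U),
        (LinearMap.restrict (T.ρ l (p * f)) h3).charpoly = P.map (algebraMap ℚ (K l)) := by
      rintro U rfl h3
      exact h2
    refine ⟨hker l, ?_⟩
    have h4 : ∀ x ∈ LinearMap.ker (T.ρ l y), T.ρ l (p * f) x ∈ LinearMap.ker (T.ρ l y) := by
      intro x hx
      rw [hpf l x hx]
      exact hker l x hx
    rw [← key _ hl h4]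
    congr 1
    apply LinearMap.ext
    rintro ⟨v, hv⟩
    apply Subtype.ext
    exact (hpf l v hv).symm
  refine ⟨P, heq l0 hp2, fun l => ?_, fun l hl => heq l ?_⟩
  · refine ⟨hker l, ?_⟩
    obtain ⟨h1, h2⟩ := hP l
    rw [← h2]
    refine charpoly_dvd_of_inj (Submodule.inclusion (hp1 l)) (Submodule.inclusion_injective _) _ _ ?_
    rintro ⟨v, hv⟩
    apply Subtype.ext
    exact (hpf l v hv).symm
  · refine (Submodule.eq_of_le_of_finrank_eq (hp1 l) ?_).symm
    rw [hl, ← hp2]
    have h5 : ∀ l, (TS.rk (T.ρ l p) : ℚ) = T.t p := by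
      intro l
      have h1 := TS.trace_idem (T.ρ l p) (hp l)
      rw [T.tr l p] at h1
      exact_mod_cast h1.symm
    have h6 : (TS.rk (T.ρ l0 p) : ℚ) = TS.rk (T.ρ l p) := by rw [h5, h5]
    exact_mod_cast h6

end Pool.Agent.H79R
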