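import Mathlib

set_option autoImplicit false

/-!
# Rings of endomorphisms with rational traces (Jannsen's argument)

Let `V` be a finite-dimensional vector space over a field `K` of characteristic zero and `C` a
`ℚ`-subalgebra of `End_K(V)` such that all traces are rational and the trace form is nondegenerate
on `C`.  Then `C` is finite-dimensional over `ℚ` and semisimple, hence von Neumann regular.
-/

namespace Pool.Agent.H79R

open Module

universe v w

section

variable {K : Type v} [Field K] [CharZero K] {V : Type w} [AddCommGroup V] [Module K V]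
  [Module ℚ V] [IsScalarTower ℚ K V]

/-- the rational trace -/
noncomputable def ratTr (C : Subalgebra ℚ (Module.End K V))
    (ht : ∀ c ∈ C, ∃ t : ℚ, LinearMap.trace K V c = (t : K)) : C →ₗ[ℚ] ℚ where
  toFun c := Classical.choose (ht c.1 c.2)
  map_add' a b := by
    have h : ((Classical.choose (ht (a + b).1 (a + b).2) : ℚ) : K) =
        ((Classical.choose (ht a.1 a.2) + Classical.choose (ht b.1 b.2) : ℚ) : K) := by
      rw [← Classical.choose_spec (ht (a + b).1 (a + b).2), Rat.cast_add,
        ← Classical.choose_spec (ht a.1 a.2), ← Classical.choose_spec (ht b.1 b.2), ← map_add]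
      rfl
    exact Rat.cast_injective h
  map_smul' q a := by
    have h : ((Classical.choose (ht (q • a).1 (q • a).2) : ℚ) : K) =
        ((q * Classical.choose (ht a.1 a.2) : ℚ) : K) := by
      rw [← Classical.choose_spec (ht (q • a).1 (q • a).2), Rat.cast_mul,
        ← Classical.choose_spec (ht a.1 a.2)]
      have : (q • a).1 = (q : K) • a.1 := by
        ext x
        change q • (a.1 x) = (q : K) • (a.1 x)
        rw [← algebraMap_smul K q (a.1 x)]
        simp
      rw [this, map_smul, smul_eq_mul]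
    exact Rat.cast_injective h

lemma ratTr_spec (C : Subalgebra ℚ (Module.End K V))
    (ht : ∀ c ∈ C, ∃ t : ℚ, LinearMap.trace K V c = (t : K)) (c : C) :
    LinearMap.trace K V c.1 = ((ratTr C ht c : ℚ) : K) :=
  Classical.choose_spec (ht c.1 c.2)

theorem finite_of_nondeg [FiniteDimensional K V] (C : Subalgebra ℚ (Module.End K V))
    (ht : ∀ c ∈ C, ∃ t : ℚ, LinearMap.trace K V c = (t : K))
    (hn : ∀ c ∈ C, (∀ c' ∈ C, LinearMap.trace K V (c * c') = 0) → c = 0) :
    FiniteDimensional ℚ C := by
  obtain ⟨T, hT, hspan⟩ := (Submodule.fg_span_iff_fg_span_finset_subset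
    (R := K) (C : Set (Module.End K V))).1 (IsNoetherian.noetherian _)
  have hmem : ∀ t : T, (t : Module.End K V) ∈ C := fun t => hT t.2
  let Φ : C →ₗ[ℚ] (T → ℚ) := LinearMap.pi fun t =>
    (ratTr C ht) ∘ₗ (LinearMap.mulRight ℚ (⟨t, hmem t⟩ : C))
  have hinj : Function.Injective Φ := by
    rw [injective_iff_map_eq_zero]
    intro c hc
    have h1 : ∀ x ∈ Submodule.span K (T : Set (Module.End K V)),
        LinearMap.trace K V (c.1 * x) = 0 := by
      intro x hx
      induction hx using Submodule.span_induction with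
      | mem x hx =>
        have h3 := congrFun hc ⟨x, hx⟩
        have h4 : ratTr C ht (c * (⟨x, hmem ⟨x, hx⟩⟩ : C)) = 0 := h3
        have h5 := ratTr_spec C ht (c * (⟨x, hmem ⟨x, hx⟩⟩ : C))
        rw [h4, Rat.cast_zero] at h5
        exact h5
      | zero => simp
      | add x y _ _ hx hy => rw [mul_add, map_add, hx, hy, add_zero]
      | smul a x _ hx => rw [mul_smul_comm, map_smul, hx, smul_zero]
    refine Subtype.ext (hn c.1 c.2 fun c' hc' => h1 c' ?_)
    rw [← hspan]
    exact Submodule.subset_span hc'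
  exact FiniteDimensional.of_injective Φ hinj

/-- `C` is semisimple. -/
theorem semisimple_of_nondeg [FiniteDimensional K V] (C : Subalgebra ℚ (Module.End K V))
    (ht : ∀ c ∈ C, ∃ t : ℚ, LinearMap.trace K V c = (t : K))
    (hn : ∀ c ∈ C, (∀ c' ∈ C, LinearMap.trace K V (c * c') = 0) → c = 0) :
    IsSemisimpleRing C := by
  have := finite_of_nondeg C ht hn
  have : IsArtinianRing C := IsArtinianRing.of_finite ℚ C
  rw [IsArtinianRing.isSemisimpleRing_iff_jacobson, eq_bot_iff]
  intro c hc
  obtain ⟨n, hn'⟩ := (IsSemiprimaryRing.isNilpotent : IsNilpotent (Ring.jacobson C))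
  have h1 : ∀ c' : C, IsNilpotent (c * c') := by
    intro c'
    refine ⟨n, ?_⟩
    have h2 : c * c' ∈ Ring.jacobson C := Ideal.mul_mem_right c' _ hc
    have h3 : (c * c') ^ n ∈ (Ring.jacobson C) ^ n := Ideal.pow_mem_pow h2 n
    rw [hn'] at h3
    exact h3
  refine Subtype.ext (hn c.1 c.2 fun c' hc' => ?_)
  obtain ⟨m, hm⟩ := h1 ⟨c', hc'⟩
  have h4 : IsNilpotent (c.1 * c') := ⟨m, congrArg Subtype.val hm⟩
  exact (LinearMap.isNilpotent_trace_of_isNilpotent h4).eq_zero

/-- Semisimple rings are von Neumann regular. -/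
lemma regular_of_semisimple {R : Type*} [Ring R] [IsSemisimpleRing R] (a : R) :
    ∃ x : R, a * x * a = a := by
  obtain ⟨e, he, hI⟩ := IsSemisimpleRing.ideal_eq_span_idempotent (Ideal.span {a})
  have h1 : e ∈ Ideal.span {a} := by rw [hI]; exact Ideal.mem_span_singleton_self e
  have h2 : a ∈ Ideal.span {e} := by rw [← hI]; exact Ideal.mem_span_singleton_self a
  obtain ⟨x, hx⟩ := Ideal.mem_span_singleton'.1 h1
  obtain ⟨b, hb⟩ := Ideal.mem_span_singleton'.1 h2
  refine ⟨x, ?_⟩
  rw [mul_assoc, hx, ← hb, mul_assoc, he.eq]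

theorem regular_of_nondeg [FiniteDimensional K V] (C : Subalgebra ℚ (Module.End K V))
    (ht : ∀ c ∈ C, ∃ t : ℚ, LinearMap.trace K V c = (t : K))
    (hn : ∀ c ∈ C, (∀ c' ∈ C, LinearMap.trace K V (c * c') = 0) → c = 0) (a) (ha : a ∈ C) :
    ∃ x ∈ C, a * x * a = a := by
  have := semisimple_of_nondeg C ht hn
  obtain ⟨x, hx⟩ := regular_of_semisimple (⟨a, ha⟩ : C)
  exact ⟨x.1, x.2, congrArg Subtype.val hx⟩

end

/-- Version without a chosen `ℚ`-structure. -/
theorem exists_regular {K : Type v} [Field K] [CharZero K] {V : Type w} [AddCommGroup V]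
    [Module K V] [FiniteDimensional K V] (C : Subring (Module.End K V))
    (hq : ∀ (q : ℚ) (c : Module.End K V), c ∈ C → (q : K) • c ∈ C)
    (ht : ∀ c ∈ C, ∃ t : ℚ, LinearMap.trace K V c = (t : K))
    (hn : ∀ c ∈ C, (∀ c' ∈ C, LinearMap.trace K V (c * c') = 0) → c = 0) (a) (ha : a ∈ C) :
    ∃ x ∈ C, a * x * a = a := by
  let : Module ℚ V := Module.compHom V (algebraMap ℚ K)
  have : IsScalarTower ℚ K V := ⟨fun q a x => by
    change (q • a) • x = (algebraMap ℚ K q) • (a • x)
    rw [← mul_smul, Algebra.smul_def]⟩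
  let C' : Subalgebra ℚ (Module.End K V) :=
    { C with
      algebraMap_mem' := fun q => by
        have h := hq q 1 C.one_mem
        have e : algebraMap ℚ (Module.End K V) q = (q : K) • 1 := by
          ext x
          change (algebraMap ℚ K q) • x = _
          simp
        rw [e]
        exact h }
  exact regular_of_nondeg C' ht hn a ha

end Pool.Agent.H79R
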